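import Pool.Agent.TH177.GH.Main

/-!
# The equivariant generating hypothesis fails for the circle group

Let `T` be the circle group and `Z` the unit sphere of `ℂ²`, a free `T`-space. Put `X = Σ^∞ Z₊` and
`Y = F(Z₊, S²)`. Maps `X → Y` are stable cohomotopy classes of degree `2` on `Z × Z`, that is, as
the action is free, on the orbit space `(Z × Z)/T`. The class pulled back from the identity of
`S² = ℂP¹ = Z/T` along the second projection has infinite order (the diagonal is a section). For a
finite subgroup `H` of order `m`, the Adams isomorphism and the transfer show that the map induced
on `H`-fixed points is a class on `Z/H × Z/H` whose Hurewicz image is `m` times the pull-back of the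
Euler class of `Z → Z/H`, which is zero; on `T`-fixed points one gets a class in the finite group
`π¹(S² × S²)`. The kernel of the Hurewicz map on these manifolds is killed by an integer `N` (for
instance `96`) which does not depend on `H`. So `N` times the map is a map of infinite order
between finite `T`-spectra which is zero on all homotopy groups of all fixed point spectra.
-/

namespace Pool.Agent.Results.MP_2c15fb_gt.CircleCounterexample

open CategoryTheory Pool.Agent.TH177.GH

theorem result (T : ∀ G : CompactLieGroup, StableCategory G) (F : CohomologyFacts (T one))
    (K : EquivariantFacts F (T circle)) :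
    (¬ Q1 T) ∧ (T circle).IsFinite ((T circle).sp Z) ∧
      (T circle).IsFinite ((T circle).dual ((T circle).sp Z) 2) ∧
      ∃ f : (T circle).sp Z ⟶ (T circle).dual ((T circle).sp Z) 2,
        (∀ m : ℕ, m • f = 0 → m = 0) ∧ StableCategory.IsGhost f :=
  ⟨not_Q1 T F K, K.finite_sphere, K.finite_dual _ K.finite_sphere, counterexample K⟩

end Pool.Agent.Results.MP_2c15fb_gt.CircleCounterexample
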